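import Mathlib

set_option autoImplicit false

namespace Pool.Agent.Lib.MP_3ec1f3_nt

open Finset

/-- The exact telescoping identity. -/
theorem exact_identity {R : Type*} [CommRing R] (Q t : R) (E : ℕ → R) (h0 : E 0 = 1) (m : ℕ) :
    (∑ k ∈ range m, ((1 - t) * (2 * Q ^ 2 * E (k + 1) + Q * (k + 1) * (E (k + 1) - E k))
      - ((k + 1) ^ 2 * E (k + 1) - ((k + 1) - t * Q) ^ 2 * E k
        + 2 * (1 - t) * Q * (k + 1) * E (k + 1) + (1 - t) * (2 - t) * Q ^ 2 * E (k + 1))))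
    = (1 - Q) * ∑ k ∈ range (m + 1), (2 * k + 1 - Q * t) * E k - (1 - t) * t * Q ^ 2
      + ((1 - t) * Q * (m + 1) - (m + 1 - t * Q) ^ 2) * E m := by
  induction m with
  | zero => simp [h0]; ring
  | succ m ih =>
    rw [sum_range_succ, ih, sum_range_succ _ (m + 1)]
    push_cast
    ring

/-- Truncated binomial theorem. -/
theorem binom_trunc {R : Type*} [CommRing R] (u : R) (M : ℕ) :
    ∃ ρ : R, (1 - u) ^ M = 1 - (M.choose 1) * u + (M.choose 2) * u ^ 2 - (M.choose 3) * u ^ 3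
      + (M.choose 4) * u ^ 4 - (M.choose 5) * u ^ 5 + (M.choose 6) * u ^ 6 + u ^ 7 * ρ := by
  induction M with
  | zero => exact ⟨0, by simp⟩
  | succ M ih =>
    obtain ⟨ρ, hρ⟩ := ih
    refine ⟨ρ * (1 - u) - (M.choose 6), ?_⟩
    rw [pow_succ, hρ]
    simp only [Nat.choose_succ_succ' M, Nat.choose_zero_right]
    push_cast
    ring

/-- The values of `C(2N,i) t^i` when `N t = 1`. -/
theorem choose_coeffs {R : Type*} [CommRing R] [IsDomain R] [CharZero R] (N : ℕ) (hN : 3 ≤ N)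
    (t : R) (ht : (N : R) * t = 1) :
    (((2 * N).choose 1 : ℕ) : R) * t = 2 ∧
    (((2 * N).choose 2 : ℕ) : R) * t ^ 2 = 2 - t ∧
    3 * ((((2 * N).choose 3 : ℕ) : R) * t ^ 3) = 2 * (1 - t) * (2 - t) ∧
    6 * ((((2 * N).choose 4 : ℕ) : R) * t ^ 4) = (1 - t) * (2 - t) * (2 - 3 * t) ∧
    15 * ((((2 * N).choose 5 : ℕ) : R) * t ^ 5) = (1 - t) * (2 - t) * (2 - 3 * t) * (1 - 2 * t) ∧
    90 * ((((2 * N).choose 6 : ℕ) : R) * t ^ 6)
      = (1 - t) * (2 - t) * (2 - 3 * t) * (1 - 2 * t) * (2 - 5 * t) := by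
  have step : ∀ i : ℕ, i ≤ 2 * N → (((2 * N).choose (i + 1) : ℕ) : R) * t ^ (i + 1) * ((i : R) + 1)
      = (((2 * N).choose i : ℕ) : R) * t ^ i * (2 - i * t) := by
    intro i hi
    have h := Nat.choose_succ_right_eq (2 * N) i
    have h' : (((2 * N).choose (i + 1) * (i + 1) : ℕ) : R)
        = (((2 * N).choose i * (2 * N - i) : ℕ) : R) := by rw [h]
    rw [Nat.cast_mul, Nat.cast_mul, Nat.cast_sub hi] at h'
    push_cast at h'
    linear_combination t ^ (i + 1) * h' + 2 * (((2 * N).choose i : ℕ) : R) * t ^ i * ht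
  have s0 := step 0 (by omega)
  have s1 := step 1 (by omega)
  have s2 := step 2 (by omega)
  have s3 := step 3 (by omega)
  have s4 := step 4 (by omega)
  have s5 := step 5 (by omega)
  norm_num at s0 s1 s2 s3 s4 s5
  simp only [Nat.choose_one_right]
  push_cast
  set c2 := (((2 * N).choose 2 : ℕ) : R) * t ^ 2
  set c3 := (((2 * N).choose 3 : ℕ) : R) * t ^ 3
  set c4 := (((2 * N).choose 4 : ℕ) : R) * t ^ 4
  set c5 := (((2 * N).choose 5 : ℕ) : R) * t ^ 5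
  set c6 := (((2 * N).choose 6 : ℕ) : R) * t ^ 6
  have h2 : c2 = 2 - t := by
    have : (2 : R) * (c2 - (2 - t)) = 0 := by linear_combination s1 + (2 - t) * s0
    have h20 : (2 : R) ≠ 0 := by norm_num
    have := (mul_eq_zero.mp this).resolve_left h20
    linear_combination this
  have h3 : 3 * c3 = 2 * (1 - t) * (2 - t) := by rw [h2] at s2; linear_combination s2
  have h4 : 6 * c4 = (1 - t) * (2 - t) * (2 - 3 * t) := by
    have : (2 : R) * (6 * c4 - (1 - t) * (2 - t) * (2 - 3 * t)) = 0 := by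
      linear_combination 3 * s3 + (2 - 3 * t) * h3
    have h20 : (2 : R) ≠ 0 := by norm_num
    have := (mul_eq_zero.mp this).resolve_left h20
    linear_combination this
  have h5 : 15 * c5 = (1 - t) * (2 - t) * (2 - 3 * t) * (1 - 2 * t) := by
    have : (2 : R) * (15 * c5 - (1 - t) * (2 - t) * (2 - 3 * t) * (1 - 2 * t)) = 0 := by
      linear_combination 6 * s4 + (2 - 4 * t) * h4
    have h20 : (2 : R) ≠ 0 := by norm_num
    have := (mul_eq_zero.mp this).resolve_left h20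
    linear_combination this
  have h6 : 90 * c6 = (1 - t) * (2 - t) * (2 - 3 * t) * (1 - 2 * t) * (2 - 5 * t) := by
    linear_combination 15 * s5 + (2 - 5 * t) * h5
  exact ⟨s0, h2, h3, h4, h5, h6⟩

/-- The local estimate: one term of the transformed sum. -/
theorem local_est {R : Type*} [CommRing R] [IsDomain R] [CharZero R] (N : ℕ) (hN : 3 ≤ N)
    (t : R) (ht : (N : R) * t = 1) :
    ∃ A5 A6 : R,
      90 * A5 = (1 - t) * (6 * (2 - t) * (10 * (1 - t) * (2 - t) - 15 * (1 - t) * (2 - 3 * t)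
        + 6 * (2 - 3 * t) * (1 - 2 * t))) ∧
      90 * A6 = (1 - t) * ((2 - t) * (-15 * (1 - t) * (2 - t) * (2 - 3 * t)
        + 36 * (1 - t) * (2 - 3 * t) * (1 - 2 * t) - 6 * (2 - 3 * t) * (1 - 2 * t) * (2 - 5 * t))) ∧
      ∀ (Q z K E : R), K * z = Q → z ^ 5 * Q ^ 2 ∣
        6 * ((1 - t) * (2 * Q ^ 2 * ((1 - t * z) ^ (2 * N) * E)
            + Q * K * ((1 - t * z) ^ (2 * N) * E - E))
          - (K ^ 2 * ((1 - t * z) ^ (2 * N) * E) - (K - t * Q) ^ 2 * E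
            + 2 * (1 - t) * Q * K * ((1 - t * z) ^ (2 * N) * E)
            + (1 - t) * (2 - t) * Q ^ 2 * ((1 - t * z) ^ (2 * N) * E)))
        - Q ^ 2 * (1 - t) * (2 + 5 * t) * ((1 - t * z) ^ (2 * N) * E - E)
        - Q ^ 2 * (A5 * (z ^ 3 * E) + A6 * (z ^ 4 * E)) := by
  obtain ⟨h1, h2, h3, h4, h5, h6⟩ := choose_coeffs N hN t ht
  set c3 := (((2 * N).choose 3 : ℕ) : R) * t ^ 3 with hc3
  set c4 := (((2 * N).choose 4 : ℕ) : R) * t ^ 4 with hc4
  set c5 := (((2 * N).choose 5 : ℕ) : R) * t ^ 5 with hc5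
  set c6 := (((2 * N).choose 6 : ℕ) : R) * t ^ 6 with hc6
  refine ⟨(1 - t) * (2 - t) * c3 - 6 * (1 - t) * c4 + 6 * c5,
    -(1 - t) * (2 - t) * c4 + 6 * (1 - t) * c5 - 6 * c6, ?_, ?_, ?_⟩
  · linear_combination 30 * (1 - t) * (2 - t) * h3 - 90 * (1 - t) * h4 + 36 * h5
  · linear_combination -15 * (1 - t) * (2 - t) * h4 + 36 * (1 - t) * h5 - 6 * h6
  · intro Q z K E hKz
    obtain ⟨ρ, hρ⟩ := binom_trunc (t * z) (2 * N)
    have hx : (1 - t * z) ^ (2 * N) = 1 - 2 * z + (2 - t) * z ^ 2 - c3 * z ^ 3 + c4 * z ^ 4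
        - c5 * z ^ 5 + c6 * z ^ 6 + t ^ 7 * z ^ 7 * ρ := by
      rw [hρ, hc3, hc4, hc5, hc6]
      linear_combination -z * h1 + z ^ 2 * h2
    set x := (1 - t * z) ^ (2 * N) with hxdef
    refine ⟨E * (-(z ^ 2 * t ^ 9 * ρ) + 3 * z ^ 2 * t ^ 8 * ρ - 2 * z ^ 2 * t ^ 7 * ρ
      + 6 * z * t ^ 8 * ρ - 6 * z * t ^ 7 * ρ - z * t ^ 2 * c6 + 3 * z * t * c6 - 2 * z * c6
      - 6 * t ^ 7 * ρ + t ^ 2 * c5 - 3 * t * c5 + 6 * t * c6 + 2 * c5 - 6 * c6), ?_⟩
    rw [hx, ← hKz]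
    linear_combination (K ^ 2 * E * z ^ 3 * 2 + K ^ 2 * E * z ^ 4 * 2 * (1 - t)) * h3
      - K ^ 2 * E * z ^ 4 * h4

end Pool.Agent.Lib.MP_3ec1f3_nt
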