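import Mathlib
import Pool.Agent.Lib.MP_3ec1f3_nt.Local

set_option autoImplicit false

namespace Pool.Agent.Lib.MP_3ec1f3_nt

open Finset

/-- `∏ (1 - y_i) ≡ 1 - ∑ y_i` modulo `c²` if `c` divides every `y_i`. -/
theorem prod_one_sub {R : Type*} [CommRing R] (c : R) (y : ℕ → R) (m : ℕ)
    (hy : ∀ i < m, c ∣ y i) :
    c ∣ (∏ i ∈ range m, (1 - y i)) - 1 ∧
    c ^ 2 ∣ (∏ i ∈ range m, (1 - y i)) - (1 - ∑ i ∈ range m, y i) := by
  induction m with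
  | zero => simp
  | succ m ih =>
    obtain ⟨⟨u, hu⟩, ⟨v, hv⟩⟩ := ih (fun i hi => hy i (by omega))
    obtain ⟨w, hw⟩ := hy m (by omega)
    rw [prod_range_succ, sum_range_succ]
    set P := ∏ i ∈ range m, (1 - y i)
    set S := ∑ i ∈ range m, y i
    constructor
    · refine ⟨u - w * P, ?_⟩
      rw [hw]; linear_combination hu
    · refine ⟨v - w * u, ?_⟩
      rw [hw]
      linear_combination hv - c * w * hu

theorem sum_even_odd {M : Type*} [AddCommMonoid M] (g : ℕ → M) (h : ℕ) :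
    ∑ i ∈ range (2 * h), g i = ∑ j ∈ range h, g (2 * j) + ∑ j ∈ range h, g (2 * j + 1) := by
  induction h with
  | zero => simp
  | succ h ih =>
    rw [show 2 * (h + 1) = 2 * h + 1 + 1 by ring, sum_range_succ, sum_range_succ, ih,
      sum_range_succ, sum_range_succ]
    abel

section

variable {R : Type*} [CommRing R] [IsDomain R] [CharZero R] (π : R) (m : ℕ) (ζ : ℕ → R)
  (hζ : ∀ j < m, ((j : R) + 1) * ζ j = (m : R) + 1) (hπ : ∀ j < m, π ∣ ζ j)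

include hζ in
theorem pair (j : ℕ) (hj : j < m) : ζ j + ζ (m - 1 - j) = ζ j * ζ (m - 1 - j) := by
  have h1 := hζ j hj
  have h2 := hζ (m - 1 - j) (by omega)
  have h3 : (((m - 1 - j : ℕ) : R)) + 1 = (m : R) - j := by
    have : m - 1 - j + 1 = m - j := by omega
    have h4 : ((m - 1 - j + 1 : ℕ) : R) = ((m - j : ℕ) : R) := by rw [this]
    rw [Nat.cast_sub (by omega)] at h4
    push_cast at h4
    exact h4
  rw [h3] at h2
  have h5 : ((m : R) + 1) ≠ 0 := by exact_mod_cast Nat.succ_ne_zero m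
  apply mul_left_cancel₀ h5
  linear_combination -ζ (m - 1 - j) * h1 - ζ j * h2

include hζ hπ in
/-- `z² ≡ w²` modulo `π³` for paired indices. -/
theorem sq_pair (j : ℕ) (hj : j < m) : π ^ 3 ∣ ζ j ^ 2 - ζ (m - 1 - j) ^ 2 := by
  have h := pair m ζ hζ j hj
  obtain ⟨a, ha⟩ := hπ j hj
  obtain ⟨b, hb⟩ := hπ (m - 1 - j) (by omega)
  refine ⟨a * b * (a - b), ?_⟩
  rw [ha, hb] at h ⊢
  linear_combination (π * a - π * b) * h

include hζ in
theorem double (j : ℕ) (hj : 2 * j + 1 < m) : 2 * ζ (2 * j + 1) = ζ j := by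
  have h1 := hζ j (by omega)
  have h2 := hζ (2 * j + 1) hj
  push_cast at h2
  have h5 : ((j : R) + 1) ≠ 0 := by exact_mod_cast Nat.succ_ne_zero j
  apply mul_left_cancel₀ h5
  linear_combination h2 - h1

include hζ hπ in
/-- The sum of squares vanishes modulo `π³`. -/
theorem sum_sq (h : ℕ) (hm : m = 2 * h) (h3 : IsUnit (3 : R)) :
    π ^ 3 ∣ ∑ j ∈ range m, ζ j ^ 2 := by
  have e1 : π ^ 3 ∣ ∑ j ∈ range h, (ζ (2 * j) ^ 2 - ζ (m - 1 - 2 * j) ^ 2) :=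
    dvd_sum fun j hj => sq_pair π m ζ hζ hπ (2 * j) (by have := mem_range.mp hj; omega)
  have e2 : π ^ 3 ∣ ∑ j ∈ range h, (ζ j ^ 2 - ζ (m - 1 - j) ^ 2) :=
    dvd_sum fun j hj => sq_pair π m ζ hζ hπ j (by have := mem_range.mp hj; omega)
  have r1 : ∑ j ∈ range h, ζ (m - 1 - 2 * j) ^ 2 = ∑ j ∈ range h, ζ (2 * j + 1) ^ 2 := by
    rw [← sum_range_reflect (fun j => ζ (2 * j + 1) ^ 2)]
    refine sum_congr rfl fun j hj => ?_
    have := mem_range.mp hj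
    congr 2; omega
  have r2 : ∑ j ∈ range h, ζ (m - 1 - j) ^ 2 = ∑ j ∈ range h, ζ (h + j) ^ 2 := by
    rw [← sum_range_reflect (fun j => ζ (h + j) ^ 2)]
    refine sum_congr rfl fun j hj => ?_
    have := mem_range.mp hj
    congr 2; omega
  have t1 : ∑ j ∈ range m, ζ j ^ 2
      = ∑ j ∈ range h, ζ (2 * j) ^ 2 + ∑ j ∈ range h, ζ (2 * j + 1) ^ 2 := by
    rw [hm, sum_even_odd]
  have t2 : ∑ j ∈ range m, ζ j ^ 2
      = ∑ j ∈ range h, ζ j ^ 2 + ∑ j ∈ range h, ζ (h + j) ^ 2 := by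
    rw [hm, show 2 * h = h + h by ring, sum_range_add]
  have d1 : 4 * ∑ j ∈ range h, ζ (2 * j + 1) ^ 2 = ∑ j ∈ range h, ζ j ^ 2 := by
    rw [mul_sum]
    refine sum_congr rfl fun j hj => ?_
    rw [← double m ζ hζ j (by have := mem_range.mp hj; omega)]
    ring
  rw [sum_sub_distrib, r1] at e1
  rw [sum_sub_distrib, r2] at e2
  obtain ⟨u, hu⟩ := e1
  obtain ⟨v, hv⟩ := e2
  have key : π ^ 3 ∣ 3 * ∑ j ∈ range m, ζ j ^ 2 := by
    refine ⟨4 * u + v, ?_⟩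
    linear_combination (4 : R) * t1 - t2 + 4 * hu + 2 * d1 + hv
  exact (h3.dvd_mul_left).mp key

include hζ hπ in
/-- `∑ z w ≡ 0` modulo `π³`. -/
theorem sum_prod (h : ℕ) (hm : m = 2 * h) (h3 : IsUnit (3 : R)) :
    π ^ 3 ∣ ∑ j ∈ range m, ζ j * ζ (m - 1 - j) := by
  have e1 : π ^ 3 ∣ ∑ j ∈ range m, (ζ j * ζ (m - 1 - j) + ζ j ^ 2) := by
    refine dvd_sum fun j hj => ?_
    have hj' := mem_range.mp hj
    have hp := pair m ζ hζ j hj'
    obtain ⟨a, ha⟩ := hπ j hj'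
    obtain ⟨b, hb⟩ := hπ (m - 1 - j) (by omega)
    refine ⟨a * a * b, ?_⟩
    rw [ha, hb] at hp ⊢
    linear_combination (π * a) * hp
  rw [sum_add_distrib] at e1
  exact (dvd_add_left (sum_sq π m ζ hζ hπ h hm h3)).mp e1

include hζ hπ in
theorem s_total (h2 : IsUnit (2 : R)) : π ^ 2 ∣ ∑ j ∈ range m, ζ j := by
  have e : 2 * ∑ j ∈ range m, ζ j = ∑ j ∈ range m, ζ j * ζ (m - 1 - j) := by
    have h1 : ∑ j ∈ range m, ζ (m - 1 - j) = ∑ j ∈ range m, ζ j := sum_range_reflect ζ m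
    rw [two_mul]
    nth_rewrite 2 [← h1]
    rw [← sum_add_distrib]
    exact sum_congr rfl fun j hj => pair m ζ hζ j (mem_range.mp hj)
  have k : π ^ 2 ∣ 2 * ∑ j ∈ range m, ζ j := by
    rw [e]
    refine dvd_sum fun j hj => ?_
    rw [sq]
    exact mul_dvd_mul (hπ j (mem_range.mp hj)) (hπ _ (by have := mem_range.mp hj; omega))
  exact (h2.dvd_mul_left).mp k

include hζ hπ in
theorem s_reflect (h2 : IsUnit (2 : R)) (j : ℕ) (hj : j ≤ m) :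
    π ^ 2 ∣ ∑ i ∈ range (m - j), ζ i - ∑ i ∈ range j, ζ i := by
  induction j with
  | zero => simpa using s_total π m ζ hζ hπ h2
  | succ j ih =>
    have h1 := ih (by omega)
    have e : m - j = (m - (j + 1)) + 1 := by omega
    rw [e, sum_range_succ] at h1
    rw [sum_range_succ _ j]
    have hp := pair m ζ hζ j (by omega)
    have hw : m - (j + 1) = m - 1 - j := by omega
    rw [hw] at h1 ⊢
    have k : π ^ 2 ∣ ζ j * ζ (m - 1 - j) := by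
      rw [sq]; exact mul_dvd_mul (hπ j (by omega)) (hπ _ (by omega))
    rw [← hp] at k
    have := dvd_sub h1 k
    convert this using 1
    ring

/-- The partial products `E_j`. -/
def EE (t : R) (N : ℕ) : ℕ → R
  | 0 => 1
  | j + 1 => (1 - t * ζ j) ^ (2 * N) * EE t N j

omit [IsDomain R] [CharZero R] in
theorem EE_eq_prod (t : R) (N : ℕ) (j : ℕ) :
    EE ζ t N j = (∏ i ∈ range j, (1 - t * ζ i)) ^ (2 * N) := by
  induction j with
  | zero => simp [EE]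
  | succ j ih => rw [EE, ih, prod_range_succ, mul_pow, mul_comm]

theorem pow_approx (t : R) (N : ℕ) (hN : 3 ≤ N) (ht : (N : R) * t = 1) (z : R) :
    ∃ σ : R, (1 - t * z) ^ (2 * N) = 1 - 2 * z + z ^ 2 * σ := by
  obtain ⟨ρ, hρ⟩ := binom_trunc (t * z) (2 * N)
  have h1 := (choose_coeffs N hN t ht).1
  refine ⟨(((2 * N).choose 2 : ℕ) : R) * t ^ 2 - (((2 * N).choose 3 : ℕ) : R) * t ^ 3 * z
    + (((2 * N).choose 4 : ℕ) : R) * t ^ 4 * z ^ 2 - (((2 * N).choose 5 : ℕ) : R) * t ^ 5 * z ^ 3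
    + (((2 * N).choose 6 : ℕ) : R) * t ^ 6 * z ^ 4 + t ^ 7 * z ^ 5 * ρ, ?_⟩
  rw [hρ]
  linear_combination -z * h1

include hπ in
theorem E_approx (t : R) (N : ℕ) (hN : 3 ≤ N) (ht : (N : R) * t = 1) (j : ℕ) (hj : j ≤ m) :
    π ^ 2 ∣ EE ζ t N j - (1 - 2 * ∑ i ∈ range j, ζ i) ∧ π ∣ ∑ i ∈ range j, ζ i := by
  induction j with
  | zero => simp [EE]
  | succ j ih =>
    obtain ⟨⟨a, ha⟩, ⟨b, hb⟩⟩ := ih (by omega)
    obtain ⟨c, hc⟩ := hπ j (by omega)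
    obtain ⟨σ, hσ⟩ := pow_approx t N hN ht (ζ j)
    rw [EE, sum_range_succ]
    set S := ∑ i ∈ range j, ζ i
    set E := EE ζ t N j
    constructor
    · rw [hσ, hc]
      refine ⟨a + 4 * b * c - 2 * π * a * c + c ^ 2 * σ * E, ?_⟩
      linear_combination (1 - 2 * π * c) * ha + 4 * π * c * hb
    · exact ⟨b + c, by rw [hb, hc]; ring⟩

include hζ hπ in
/-- `2 ∑ z³ E + ∑ z⁴ ≡ 0` modulo `π⁵`. -/
theorem cubes (hπ0 : π ≠ 0) (t : R) (N : ℕ) (hN : 3 ≤ N) (ht : (N : R) * t = 1)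
    (h2 : IsUnit (2 : R)) :
    π ^ 5 ∣ 2 * ∑ j ∈ range m, ζ j ^ 3 * EE ζ t N j + ∑ j ∈ range m, ζ j ^ 4 := by
  set s : ℕ → R := fun j => ∑ i ∈ range j, ζ i with hs
  have hsj : ∀ j ≤ m, π ∣ s j := fun j hj => (E_approx π m ζ hπ t N hN ht j hj).2
  have e1 : π ^ 5 ∣ ∑ j ∈ range m, (ζ j ^ 3 * EE ζ t N j - ζ j ^ 3 * (1 - 2 * s j)) := by
    refine dvd_sum fun j hj => ?_
    have hj' := mem_range.mp hj
    have h := (E_approx π m ζ hπ t N hN ht j hj'.le).1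
    rw [← mul_sub, show (5 : ℕ) = 3 + 2 by norm_num, pow_add]
    exact mul_dvd_mul (pow_dvd_pow_of_dvd (hπ j hj') 3) h
  have e2 : π ^ 5 ∣ ∑ j ∈ range m, (ζ j ^ 3 * (1 - 2 * s j)
      + ζ (m - 1 - j) ^ 3 * (1 - 2 * s (m - 1 - j)) + ζ j ^ 4) := by
    refine dvd_sum fun j hj => ?_
    have hj' := mem_range.mp hj
    have hp := pair m ζ hζ j hj'
    obtain ⟨v, hv⟩ := s_reflect π m ζ hζ hπ h2 (j + 1) (by omega)
    have hr : m - (j + 1) = m - 1 - j := by omega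
    rw [hr, sum_range_succ] at hv
    obtain ⟨b, hb⟩ := hsj j hj'.le
    have hv' : s (m - 1 - j) = s j + ζ j + π ^ 2 * v := by
      simp only [hs]; linear_combination hv
    obtain ⟨c, hc⟩ := hπ j hj'
    obtain ⟨d, hd⟩ := hπ (m - 1 - j) (by omega)
    rw [hc, hd] at hp
    have hcd : c + d - π * c * d = 0 := by
      apply mul_left_cancel₀ hπ0
      linear_combination hp
    rw [hv', hb, hc, hd]
    refine ⟨(3 * c ^ 4 * d - 2 * c ^ 3 * d ^ 2 + c ^ 2 * d ^ 3)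
      * (1 - 2 * π * b - 2 * π * c - 2 * π ^ 2 * v) + 2 * v * c ^ 3
      + 6 * c ^ 4 * (b + c + π * v), ?_⟩
    linear_combination π ^ 3 * ((d ^ 2 - c * d + c ^ 2)
      + π * (3 * c ^ 3 - 2 * c ^ 2 * d + c * d ^ 2))
      * (1 - 2 * π * b - 2 * π * c - 2 * π ^ 2 * v) * hcd
  rw [sum_sub_distrib] at e1
  rw [sum_add_distrib, sum_add_distrib] at e2
  have hr : ∑ j ∈ range m, ζ (m - 1 - j) ^ 3 * (1 - 2 * s (m - 1 - j))
      = ∑ j ∈ range m, ζ j ^ 3 * (1 - 2 * s j) :=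
    sum_range_reflect (fun j => ζ j ^ 3 * (1 - 2 * s j)) m
  rw [hr] at e2
  obtain ⟨u, hu⟩ := e1
  obtain ⟨v, hv⟩ := e2
  refine ⟨2 * u + v, ?_⟩
  linear_combination 2 * hu + hv

include hζ hπ in
/-- The last product is `1` modulo `π⁴`. -/
theorem E_last (h : ℕ) (hm : m = 2 * h) (h3 : IsUnit (3 : R)) (t : R) (N : ℕ)
    (htπ : π ∣ 1 - t) :
    π ^ 4 ∣ EE ζ t N m - 1 := by
  have hsq : (∏ i ∈ range m, (1 - t * ζ i)) ^ 2
      = ∏ i ∈ range m, (1 - t * (1 - t) * (ζ i * ζ (m - 1 - i))) := by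
    have hr : ∏ i ∈ range m, (1 - t * ζ (m - 1 - i)) = ∏ i ∈ range m, (1 - t * ζ i) :=
      prod_range_reflect (fun i => 1 - t * ζ i) m
    rw [sq]
    nth_rewrite 2 [← hr]
    rw [← prod_mul_distrib]
    refine prod_congr rfl fun j hj => ?_
    have hp := pair m ζ hζ j (mem_range.mp hj)
    linear_combination -t * hp
  have hy : ∀ i < m, π ^ 3 ∣ t * (1 - t) * (ζ i * ζ (m - 1 - i)) := by
    intro i hi
    have e : π ^ 3 = π * (π * π) := by ring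
    rw [e]
    exact mul_dvd_mul (htπ.mul_left t) (mul_dvd_mul (hπ i hi) (hπ _ (by omega)))
  have h1 := (prod_one_sub (π ^ 3) (fun i => t * (1 - t) * (ζ i * ζ (m - 1 - i))) m hy).2
  rw [← mul_sum] at h1
  have h4 : π ^ 4 ∣ t * (1 - t) * ∑ i ∈ range m, ζ i * ζ (m - 1 - i) := by
    have e : π ^ 4 = π * π ^ 3 := by ring
    rw [e]
    exact mul_dvd_mul (htπ.mul_left t) (sum_prod π m ζ hζ hπ h hm h3)
  have h5 : π ^ 4 ∣ (∏ i ∈ range m, (1 - t * ζ i)) ^ 2 - 1 := by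
    rw [hsq]
    have h6 : π ^ 4 ∣ (π ^ 3) ^ 2 := ⟨π ^ 2, by ring⟩
    obtain ⟨u, hu⟩ := h6.trans h1
    obtain ⟨v, hv⟩ := h4
    refine ⟨u - v, ?_⟩
    linear_combination hu - hv
  rw [EE_eq_prod, pow_mul]
  exact h5.trans (sub_one_dvd_pow_sub_one _ _)

include hζ hπ in
/-- The main congruence in the abstract setting. -/
theorem main_abstract (hπ0 : π ≠ 0) (h : ℕ) (hm : m = 2 * h) (h2 : IsUnit (2 : R))
    (h3 : IsUnit (3 : R)) (h90 : ∀ x : R, π ^ 6 ∣ 90 * x → π ^ 5 ∣ x)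
    (t : R) (N : ℕ) (hN : 3 ≤ N) (ht : (N : R) * t = 1) (htπ : π ∣ 1 - t)
    (hQ : π ∣ (m : R) + 1) (hunit : ∀ x : R, π ∣ x → IsUnit (1 - x)) :
    π ^ 5 * ((m : R) + 1) ^ 2 ∣
      ∑ k ∈ range (m + 1), (2 * (k : R) + 1 - ((m : R) + 1) * t) * EE ζ t N k := by
  set Q : R := (m : R) + 1 with hQdef
  set F := ∑ k ∈ range (m + 1), (2 * (k : R) + 1 - Q * t) * EE ζ t N k with hF
  obtain ⟨A5, A6, hA5, hA6, hloc⟩ := local_est N hN t ht
  have hexact := exact_identity Q t (EE ζ t N) rfl m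
  rw [← hF] at hexact
  set E := EE ζ t N with hE
  -- sums
  set C3 := ∑ j ∈ range m, ζ j ^ 3 * E j with hC3
  set C4 := ∑ j ∈ range m, ζ j ^ 4 * E j with hC4
  have hcub : π ^ 5 ∣ 2 * C3 + ∑ j ∈ range m, ζ j ^ 4 := cubes π m ζ hζ hπ hπ0 t N hN ht h2
  have hE1 : ∀ j ≤ m, π ∣ E j - 1 := by
    intro j hj
    obtain ⟨⟨a, ha⟩, ⟨b, hb⟩⟩ := E_approx π m ζ hπ t N hN ht j hj
    exact ⟨π * a - 2 * b, by linear_combination ha - 2 * hb⟩
  have hC4' : π ^ 5 ∣ C4 - ∑ j ∈ range m, ζ j ^ 4 := by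
    rw [hC4, ← sum_sub_distrib]
    refine dvd_sum fun j hj => ?_
    have hj' := mem_range.mp hj
    have e : ζ j ^ 4 * E j - ζ j ^ 4 = ζ j ^ 4 * (E j - 1) := by ring
    rw [e, pow_succ]
    exact mul_dvd_mul (pow_dvd_pow_of_dvd (hπ j hj') 4) (hE1 j hj'.le)
  have h4s : π ^ 4 ∣ ∑ j ∈ range m, ζ j ^ 4 :=
    dvd_sum fun j hj => pow_dvd_pow_of_dvd (hπ j (mem_range.mp hj)) 4
  have h54 : π ^ 4 ∣ π ^ 5 := pow_dvd_pow _ (by norm_num)
  have hC3' : π ^ 4 ∣ C3 := by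
    have : π ^ 4 ∣ 2 * C3 := (dvd_add_left h4s).mp (h54.trans hcub)
    exact (h2.dvd_mul_left).mp this
  have hC4'' : π ^ 4 ∣ C4 := (dvd_sub_left h4s).mp (h54.trans hC4')
  have hX : π ^ 5 ∣ A5 * C3 + A6 * C4 := by
    apply h90
    have e : 90 * (A5 * C3 + A6 * C4) = (1 - t) * (18 * (2 * C3 + ∑ j ∈ range m, ζ j ^ 4)
        + 18 * (C4 - ∑ j ∈ range m, ζ j ^ 4)
        + (1 - t) * ((6 * t ^ 2 + 12 * t - 12) * C3
          + (9 * t ^ 3 + 12 * t ^ 2 - 30 * t - 42) * C4)) := by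
      linear_combination C3 * hA5 + C4 * hA6
    have e6 : π ^ 6 = π * π ^ 5 := by ring
    have e5 : π ^ 5 = π * π ^ 4 := by ring
    rw [e, e6]
    refine mul_dvd_mul htπ (dvd_add (dvd_add (hcub.mul_left _) (hC4'.mul_left _)) ?_)
    rw [e5]
    exact mul_dvd_mul htπ (dvd_add (hC3'.mul_left _) (hC4''.mul_left _))
  have hlast : π ^ 4 ∣ E m - 1 := E_last π m ζ hζ hπ h hm h3 t N htπ
  -- the local estimate summed up
  have hsum : π ^ 5 * Q ^ 2 ∣ ∑ j ∈ range m,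
      (6 * ((1 - t) * (2 * Q ^ 2 * E (j + 1) + Q * (j + 1) * (E (j + 1) - E j))
      - ((j + 1) ^ 2 * E (j + 1) - ((j + 1) - t * Q) ^ 2 * E j
        + 2 * (1 - t) * Q * (j + 1) * E (j + 1) + (1 - t) * (2 - t) * Q ^ 2 * E (j + 1)))
      - Q ^ 2 * (1 - t) * (2 + 5 * t) * (E (j + 1) - E j)
      - Q ^ 2 * (A5 * (ζ j ^ 3 * E j) + A6 * (ζ j ^ 4 * E j))) := by
    refine dvd_sum fun j hj => ?_
    have hj' := mem_range.mp hj
    have := hloc Q (ζ j) ((j : R) + 1) (E j) (hζ j hj')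
    exact (mul_dvd_mul_right (pow_dvd_pow_of_dvd (hπ j hj') 5) _).trans this
  rw [sum_sub_distrib, sum_sub_distrib, ← mul_sum, ← mul_sum, ← mul_sum, sum_add_distrib,
    ← mul_sum, ← mul_sum, hexact, ← hC3, ← hC4] at hsum
  have htel : ∑ j ∈ range m, (E (j + 1) - E j) = E m - 1 := by
    rw [sum_range_sub]; rfl
  rw [htel] at hsum
  have hfin : π ^ 5 * Q ^ 2 ∣ 6 * (1 - Q) * F := by
    obtain ⟨u, hu⟩ := hsum
    obtain ⟨v, hv⟩ := hX
    obtain ⟨w, hw⟩ := hlast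
    obtain ⟨τ, hτ⟩ := htπ
    refine ⟨u + v + τ * (2 - t) * w, ?_⟩
    have hmQ : (m : R) + 1 = Q := rfl
    linear_combination hu + Q ^ 2 * hv + (Q ^ 2 * (1 - t) * (2 - t)) * hw
      + π ^ 4 * w * Q ^ 2 * (2 - t) * hτ
  have hu6 : IsUnit (6 : R) := by
    have : (6 : R) = 2 * 3 := by norm_num
    rw [this]; exact h2.mul h3
  have huQ : IsUnit (1 - Q) := hunit Q hQ
  exact ((hu6.mul huQ).dvd_mul_left).mp hfin

end

end Pool.Agent.Lib.MP_3ec1f3_nt
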